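import Mathlib
import Pool.Agent.Helper30.RegDefs
import Pool.Agent.Helper30.RegProof

/-!
# `MP_efbb80_al`, Q1: the groups `G` with `⟨a, G⟩` regular for all `a` of rank `n - k`

All `k`-homogeneous groups have the property (for every `1 ≤ k < n`), and, for every `k` and all
sufficiently large `n`, no other group has it.
-/

namespace Pool.Agent.Results.MP_efbb80_al.HomogeneousRegular

open Pool.Agent.Helper30.Reg

/-- For every `k` there is `N` such that for all `n > k` and all `G ≤ S_n`: if `G` is
`k`-homogeneous then `⟨a, G⟩` is regular for every `a` of rank `n - k`; and the converse holds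
whenever `n ≥ N`. -/
theorem result : ∀ k : ℕ, ∃ N : ℕ, ∀ n : ℕ, k < n → ∀ G : Subgroup (Equiv.Perm (Fin n)),
    (KHomogeneous k G → HasProperty k G) ∧ (N ≤ n → HasProperty k G → KHomogeneous k G) := by
  intro k
  obtain ⟨N, hN⟩ := exists_bound k
  exact ⟨N, fun n hn G => ⟨hasProperty_of_kHomogeneous hn.le, fun h => hN n h G⟩⟩

end Pool.Agent.Results.MP_efbb80_al.HomogeneousRegular
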